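import Pool.Agent.Lib.MP_70d4d1_co.Small

/-!
Regular graphs with the largest least eigenvalue: order `d + 3`.
-/

namespace Pool.Agent.Results.MP_70d4d1_co.DegreePlusThree

open Pool.Agent.Lib.MP_70d4d1_co

theorem result : ∀ d : ℕ, 1 ≤ d →
    mu (d + 3) d = -1 - 2 * Real.cos (2 * Real.pi / ((d + 3 : ℕ) : ℝ)) ∧
    ∀ G : SimpleGraph (Fin (d + 3)), Reg G d → (lamMin G = mu (d + 3) d ↔ Gᶜ.Connected) :=
  fun _ hd => mu_plus_three hd

end Pool.Agent.Results.MP_70d4d1_co.DegreePlusThree
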