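import Pool.Agent.Lib.MP_70d4d1_co.Blocks

/-!
Regular graphs with the largest least eigenvalue: when the maximum is `-2`, and which graphs
attain it.
-/

namespace Pool.Agent.Results.MP_70d4d1_co.MinusTwo

open Pool.Agent.Lib.MP_70d4d1_co

theorem result : ∀ d n : ℕ, 3 ≤ d → ¬ (d + 1) ∣ n →
    (∀ G : SimpleGraph (Fin n), Reg G d → lamMin G ≤ -2) ∧
    (mu n d = -2 ↔ n ∈ AddSubmonoid.closure (Blocks d)) ∧
    ∀ G : SimpleGraph (Fin n), Reg G d →
      ((∀ c : G.ConnectedComponent, IsLine (G.induce c.supp) ∨ IsCocktail (G.induce c.supp)) →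
        lamMin G = -2) ∧
      (lamMin G = -2 → ∀ c : G.ConnectedComponent,
        IsLine (G.induce c.supp) ∨ IsCocktail (G.induce c.supp) ∨ (d, c.supp.ncard) ∈ etab) := by
  intro d n hd hn
  refine ⟨fun G hr => lam_le hd hr hn, minus_two hd hn, fun G hr => ⟨fun h => ?_, fun h c => ?_⟩⟩
  · exact (lam_eq_iff hd hr hn).mpr (psd_of_comps' h)
  · rcases comps_of_psd hd hr ((lam_eq_iff hd hr hn).mp h) c with ⟨h1 | h1, -⟩ | h1
    · exact Or.inl h1
    · exact Or.inr (Or.inl h1)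
    · exact Or.inr (Or.inr h1)

end Pool.Agent.Results.MP_70d4d1_co.MinusTwo
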