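import Pool.Agent.Lib.MP_70d4d1_co.Small

/-!
Regular graphs with the largest least eigenvalue: the value of the maximum for the degrees
`2, 3, 4, 5` and all orders.
-/

namespace Pool.Agent.Results.MP_70d4d1_co.SmallDegrees

open Pool.Agent.Lib.MP_70d4d1_co

theorem result :
    (∀ n : ℕ, 3 ≤ n → ¬ 3 ∣ n → mu n 2 = if n = 4 then -2 else
      if n = 7 then -2 * Real.cos (Real.pi / 7) else -((1 + √5) / 2)) ∧
    (∀ n : ℕ, 4 ≤ n → Even n → ¬ 4 ∣ n → mu n 3 = -2) ∧
    (∀ n : ℕ, 5 ≤ n → ¬ 5 ∣ n → mu n 4 = if n = 7 then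
      -1 - 2 * Real.cos (2 * Real.pi / 7) else -2) ∧
    (∀ n : ℕ, 6 ≤ n → Even n → ¬ 6 ∣ n → mu n 5 = if n = 8 then -1 - √2 else -2) := by
  refine ⟨fun n h3 hn => ?_, fun n h4 he hn => three_value he h4 hn, fun n h5 hn => ?_,
    fun n h6 he hn => ?_⟩
  · split_ifs with h h'
    · subst h; exact four_value
    · subst h'; exact seven_value
    · exact two_value hn (by omega)
  · split_ifs with h
    · subst h
      have := (mu_plus_three (d := 4) (by norm_num)).1
      norm_num at this
      exact this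
    · exact four_value' h5 h hn
  · split_ifs with h
    · subst h
      have h1 := (mu_plus_three (d := 5) (by norm_num)).1
      have h2 : 2 * Real.pi / ((5 + 3 : ℕ) : ℝ) = Real.pi / 4 := by push_cast; ring
      rw [h2, Real.cos_pi_div_four] at h1
      norm_num at h1
      rw [h1]
      ring
    · exact five_value he h6 h hn

end Pool.Agent.Results.MP_70d4d1_co.SmallDegrees
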