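import Pool.Agent.Lib.MP_70d4d1_co.Main

/-!
Regular graphs with the largest least eigenvalue: the maximum is `-2` (or `-1`) for all orders
from about `d ^ (3 / 2)` on, and this is sharp.
-/

namespace Pool.Agent.Results.MP_70d4d1_co.Threshold

open Pool.Agent.Lib.MP_70d4d1_co

theorem result :
    (∀ d n : ℕ, 3 ≤ d → Even (n * d) → ¬ (d + 1) ∣ n →
      ((d : ℝ) + 1) * (√(d : ℝ) + 3 + 2 * √(2 * √(d : ℝ) + 1)) + (d + 2) ≤ (n : ℝ) →
        mu n d = -2) ∧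
    (∀ d s : ℕ, 28 ≤ d → 2 ≤ s → s ^ 2 ≤ d → Even (((s - 1) * (d + 2) + 1) * d) →
      mu ((s - 1) * (d + 2) + 1) d < -2) :=
  ⟨fun _ _ hd he hn hb => mu_eq_of_good hd hn (good_large (by omega) he hb),
    fun _ _ hd hs hsd he => mu_lt hd hs hsd he⟩

end Pool.Agent.Results.MP_70d4d1_co.Threshold
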